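import Pool.Agent.helper71.DSW.Main

/-!
MP_a87880_co (eventual dominance between avoider counts of two patterns).

Two patterns that switch places (at least) twice: for all large `L` the increasing pattern of
length `L^2 - 1` and the `L x L` grid permutation of length `L^2`. The difference of the numbers of
avoiders is negative for `n = L^2 - 1`, then positive for some `n`, and negative for all large `n`.
-/

namespace Pool.Agent.Results.MP_a87880_co.DoubleSwitch

open Equiv Pool.Agent.helper48.PP Pool.Agent.DSW

theorem result : ∃ L₀ : ℕ, ∀ L : ℕ, L₀ ≤ L → ∃ n₂ n₃ : ℕ, L * L - 1 < n₂ ∧ n₂ < n₃ ∧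
    avCount (L * L - 1) (1 : Perm (Fin (L * L - 1))) < avCount (L * L - 1) (grid L) ∧
    avCount n₂ (grid L) < avCount n₂ (1 : Perm (Fin (L * L - 1))) ∧
    ∀ n, n₃ ≤ n → avCount n (1 : Perm (Fin (L * L - 1))) < avCount n (grid L) :=
  fTOP

end Pool.Agent.Results.MP_a87880_co.DoubleSwitch
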