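import Pool.Agent.helper88.TN.All

/-!
# The Tate conjecture for products of powers of Jacobians of superelliptic curves

`l` is an odd prime number, `C_i : y^l = ∏_j (x - a_ij)^(μ_ij)`, `i < k`, are curves over `ℚbar` with `n_i + 1 ≥ 2` distinct branch points `a_ij` and
infinity, `0 < μ_ij < l`, `l` not dividing `∑_j μ_ij` (every cyclic cover of the line of degree `l` is of this form after moving a branch point to
infinity). Let `K = ℚ(a_ij, ζ_l)` be the field generated by the branch points of all curves and `ζ_l`. Conditions:

* (`Indep`) for every curve: a product of quotients of differences of its branch points, `∏_(j<j') (a_ij - a_ij')^(e_jj')` with `∑ e_jj' = 0`, is an `l`-th power in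
  `K` only if all `e_jj'` are divisible by `l` (no condition if there are three branch points, `n_i = 1`; the quotients do not depend on
  the coordinate, so two of the branch points may be `0` and `1`);
* (`Sep`) for every two different curves with at least four branch points: some quotient of differences of one of the curves is not in the group
  of those of the other curve and `K^l`, or the branch points are the same, up to an affine map, but the weights are not proportional modulo `l`
  (if there are four: the numbers `(μ_j + μ_k)^2` are not proportional).

For instance rational branch points such that every difference of two branch points of the same curve, but one, is divisible exactly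
once by a prime number of its own. (`Pool/Agent/helper76/GJ/Rat2.lean`, `Rat3.lean`: `Ind_of_rat`, `Far_of_rat`, and `exists_rat`: such INTEGRAL branch points
exist for all `l`, `k`, `n_i`, `μ_ij`.) The exponents `e_i ≥ 0` are arbitrary.

THEOREM. The Jacobians `ℂ^Idx ⧸ L_i` and the Abel-Jacobi maps exist (`IsJ`). Let the complex torus `A` be isogenous to `∏ Jac(C_i)^(e_i)`. There is exactly one family `e` of isomorphisms `ℚ_l ⊗ H_1(C_i(ℂ), ℤ) ≅ V_l(Jac C_i)` given by the
Abel-Jacobi maps on torsion points (the comparison isomorphisms); and in every degree `2b`: every class `X ∈ H_(2b)(A, ℚ_l)` with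
`σ X = χ(σ)^b X` for all `σ` in the Galois group of some number field is a `ℚ_l`-linear combination of classes of algebraic cycles.

There are no hypotheses on the action of the Galois group or on the comparison isomorphism: the group acts on the class groups `Cl_i` of the rings of functions on the curves minus
the points over the `a_ij` and infinity; `Cl_i` is `Jac(C_i)(ℚbar)` modulo the subgroup generated by the differences of these points, which is killed by `l`; `V_l = Hom(ℚ_l, Cl_i)`
(homomorphisms vanishing on an open subgroup, `IsTateMod`). An element of `V_l`, the homomorphism `x ↦ e_i(1 ⊗ u)(x)`, corresponds to `u ∈ L_i = H_1(C_i(ℂ), ℤ)` if its values at `l^(-k)` are the classes of divisors of degree zero whose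
images under the Abel-Jacobi map `F_i : C_i → ℂ^Idx ⧸ L_i` are `l^(-k) u`, up to a divisor class killed by `l` (`Isog.Nat`). These abelian
varieties have no complex multiplication (if `n_i ≥ 2`), and their Tate classes are not generated by divisors.

## The proof

(0) The comparison theorem (`Pool/Agent/helper47/CM`, `SpecX.lean`, `SpecC.lean`, `SpecH.lean`: analysis on the slit plane; `Pool/Agent/helper88/CM`, `SpecY.lean`, `SpecZ.lean`;
`Pool/Agent/helper39/CM/SpecD.lean`): the period lattice, the Abel-Jacobi map and its universality, the theorem of Abel, the reciprocity law for two functions (Weil pairing), the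
dimension of `V_l` (by Tsen's theorem), descent from `ℂ` to `ℚbar`. So `e` exists, is unique, commutes with the automorphisms `y ↦ ζ y`, and the class of the curve in `H_2(Jac C_i, ℤ)` is a Tate class.

(1) (`Pool/Agent/helper39/GJ/SpecR.lean`, `SpecT.lean`) Let `π = 1 - ζ`, `T = T_l(J_i)`. The classes killed by `π` have an invariant in
`D = 𝔽_l^(n+1) / 𝔽_l μ` (orders at the branch points), `T / π T = D`; if `σ` fixes the branch points and `ζ` then it acts on `T` as `1 + π A`, where the
leading term `A` is given on `D` by the Kummer characters `κ_kj` of `a_k - a_j` at `σ`: `(A d)_k = ∑_j κ_kj (d_k μ_j - μ_k d_j)`. These are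
exactly the symmetric endomorphisms of `D` for a nondegenerate form.

(2) (`SpecL.lean`, `SpecS.lean`, `SpecU.lean`, `SpecV.lean`) By Kummer theory and the conditions `Indep` and `Sep` all families of leading terms which are needed
occur; their commutators generate, by the lemma of Goursat and Ribet for graded Lie algebras, all leading terms allowed by the
unitary groups. So the Lie algebra of the image of the Galois group contains `∏ su(V_l(J_i))` (`SUPG_stmt`): Tate classes are killed by it.

(3) (`Pool/Agent/helper47/TK/SpecA.lean`, `SpecN.lean`, `SpecD.lean`, `SpecH.lean`, `SpecP.lean`, `Pool/Agent/helper76/TK/SpecC.lean`) Frobenius elements. By a weak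
form of the theorem of Chebotarev (from the pole of the Dedekind zeta function) there are a prime `p`, a place over `p` of degree
one and a Frobenius element `σ` whose matrix on every `T_l(J_i) / π T_l(J_i)` is cyclic. A relation in the class group of the curve over
the residue field (`KD9`, `KD10`: the points `(u^(p^m); ± g(a_j) v_j^(p^m))`, `g` monic of degree `k` over `𝔽_p`, of the cover `y_j^(p-1) = x - a_j`, on a hyperplane)
and specialisation of classes give `∑_k c_k σ^(n-k) = 0` on `V_l(J_i)`, `c_k = ∑_g [χ(g)]`; so the determinant of `σ` over `ℚ_l(ζ)` is the Jacobi sum
`± c_n`. With (2): a power of `(det σ)` acts on `X` as `p` to the power `b`.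

(4) (`Pool/Agent/helper88/TK/SpecK.lean`, `Pool/Agent/helper76/GJ/SpecC.lean`) So `X` is a combination of integral classes killed by
`su(H_1(C_i, ℝ))` on which this endomorphism of the complex torus acts as `p^(ν b)`; the valuations of Jacobi sums
(theorem of Stickelberger) are the Hodge numbers, so they are Hodge classes, and by the hand-in UnitaryCyclic
(`Pool.Agent.SJ.T_SU2`, which uses new algebraic cycles on products of the Jacobians and the Hodge conjecture for CM tori) they are
combinations of classes of algebraic cycles (`AlgCl`, `Pool/Agent/helper34/SJ/AlgS.lean`).

The theorem for the data of `Pool/Agent/helper39/GJ/Defs.lean` (and also Fermat curves) is `Pool.Agent.TKAll.T_GT` (`Pool/Agent/helper47/TK/All.lean`); the short definitions used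
here are in `Pool/Agent/helper88/TN/Def.lean`, `TC/Gen.lean`, the equivalence in `Pool/Agent/helper88/TN/Spec.lean`, `TC/Spec.lean`.
-/

namespace Pool.Agent.Results.MP_3703a7_ag.TateCyclic

open Pool.Agent.HC Pool.Agent.TC Pool.Agent.TN

/-- (1) The Jacobians of the curves exist. (2) The Tate conjecture with coefficients `ℚ_l`, in all degrees, for every complex torus `A` isogenous to
`∏ Jac(C_i)^(e_i)`, `C_i : y^l = ∏_j (x - a_ij)^(μ_ij)` curves with algebraic branch points whose quotients of differences are
independent modulo `l`-th powers in `K = ℚ(a_ij, ζ_l)` (`Indep`) and which are pairwise different (`Sep`): there is exactly one family `e` of comparison isomorphisms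
given by the Abel-Jacobi maps, and for it every Tate class over a number field is a `ℚ_l`-linear combination of integral algebraic classes. -/
theorem result (l : ℕ) [Fact l.Prime] (hl : l ≠ 2) (D : Cvs l) (hI : D.Indep) (hs : D.Sep) (ι : Emb) :
    (∀ i, ∃ L, D.IsJ ι i L) ∧
    ∀ (A : CT) [FiniteDimensional ℂ A.W], IsLattice A.Lam → ∀ T : Isog D ι A,
      ∃ e : T.Fam, T.Cmp e ∧ (∀ e', T.Cmp e' → e' = e) ∧
        ∀ (S : Finset Qb) (b : ℕ) (X : HL A l), T.IsTate e S b X → AlgL X :=
  ⟨exJ l hl D ι, fun A _ hA T => TN l hl D hI hs ι A hA T⟩

end Pool.Agent.Results.MP_3703a7_ag.TateCyclic
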