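import Pool.Agent.helper71.MT.Box2

/-!
# MP_bf63dc_nt: a positive proportion of all triples `(a, b, c)`, in boxes of every shape
-/

namespace Pool.Agent.helper71.Reserve.TriplesBox

/-- `a p - b q = c` has infinitely many solutions in primes `p`, `q`. -/
def Solvable (a b : ℕ) (c : ℤ) : Prop :=
  {pq : ℕ × ℕ | pq.1.Prime ∧ pq.2.Prime ∧ (a : ℤ) * pq.1 - b * pq.2 = c}.Infinite

/-- The triples `(a, b, c)` with `a`, `b` in `[1, M]` and `c` in `[1, N]` which satisfy the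
conditions of the question: `a, b, c` are pairwise coprime and not all odd. -/
def admissible (M N : ℕ) : Set (ℕ × ℕ × ℕ) :=
  {t | (1 ≤ t.1 ∧ t.1 ≤ M) ∧ (1 ≤ t.2.1 ∧ t.2.1 ≤ M) ∧ (1 ≤ t.2.2 ∧ t.2.2 ≤ N) ∧
    Nat.Coprime t.1 t.2.1 ∧ Nat.Coprime t.1 t.2.2 ∧ Nat.Coprime t.2.1 t.2.2 ∧
    ¬ (Odd t.1 ∧ Odd t.2.1 ∧ Odd t.2.2)}

/-- There are absolute constants `δ > 0` and `N₀` such that for all `M, N ≥ N₀`, independent of
each other, for at least `δ M ^ 2 N` of the triples `(a, b, c)` with `1 ≤ a, b ≤ M`, `1 ≤ c ≤ N`,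
the integers `a, b, c` are pairwise coprime and not all odd and `a p - b q = c` has infinitely
many solutions in primes `p`, `q`. -/
theorem result : ∃ (δ : ℝ) (N₀ : ℕ), 0 < δ ∧ ∀ M N : ℕ, N₀ ≤ M → N₀ ≤ N →
    δ * ((M : ℝ) ^ 2 * N) ≤
      ({t ∈ admissible M N | Solvable t.1 t.2.1 t.2.2}.ncard : ℝ) := by
  classical
  obtain ⟨δ, hδ, N₀, h⟩ := Pool.Agent.helper39.MT.triples_box
  refine ⟨δ, N₀, hδ, fun M N hM hN => (h M N hM hN).trans (le_of_eq ?_)⟩
  rw [← Set.ncard_coe_finset]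
  congr 2
  ext ⟨a, b, c⟩
  rw [Finset.mem_coe, Finset.mem_filter]
  simp only [admissible, Solvable, Pool.Agent.helper39.MT.InfSol,
    Finset.mem_product, Finset.mem_Icc, Set.mem_ofPred_eq]
  tauto

end Pool.Agent.helper71.Reserve.TriplesBox
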